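import Pool.Agent.Lib.MP_177f07_gt.Final

/-!
Countable tightness of the space of regular probability measures on products, and the equivalent
forms of the question of Plebanek and Sobota.
-/

set_option autoImplicit false

open Pool.Agent.Lib.MP_177f07_gt

namespace Pool.Agent.Results.MP_177f07_gt.CountableCriterion

theorem result :
    ProductCriterion ∧ OneSpaceForms ∧
      List.TFAE [QuestionOne, QuestionTypes, QuestionTwoFactors, QuestionProducts,
        QuestionOneSmall] :=
  ⟨productCriterion, oneSpaceForms, question_tfae⟩

end Pool.Agent.Results.MP_177f07_gt.CountableCriterion
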