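import Pool.Agent.Lib.MP_177f07_gt.PcalC

/-!
The question of Plebanek and Sobota has a positive answer for all compact spaces `K` such that
`ω₁` is a precaliber of the measure algebras of the regular probabilities on `K`; hence for all
compact spaces if `ω₁` is a precaliber of measure algebras, in particular under Martin's axiom for
`ℵ₁` dense sets.
(`QuestionOne` is the frozen statement S12817 with two abbreviations; see
`questionOne_iff_frozen` in `Pool/Agent/Lib/MP_177f07_gt/PcalC.lean`, proved by `Iff.rfl`.)
-/

set_option autoImplicit false

open Pool.Agent.Lib.MP_177f07_gt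

namespace Pool.Agent.Results.MP_177f07_gt.PrecaliberSpaces

theorem result :
    PrecaliberLocal ∧ PrecaliberPowers ∧ PrecaliberProducts ∧
      (Precaliber → QuestionOne ∧ QuestionTypes) ∧ (MartinsAxiom → Precaliber) :=
  ⟨precaliberLocal, precaliberPowers, precaliberProducts,
    fun hP => ⟨questionOne_of_precaliber hP, questionTypes_of_precaliber hP⟩,
    precaliber_of_martinsAxiom⟩

end Pool.Agent.Results.MP_177f07_gt.PrecaliberSpaces
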