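import Pool.Agent.Lib.MP_177f07_gt.Final

/-!
The analogue of the question of Plebanek and Sobota for uncountable bounds of the tightness:
it is true, and there is a formula for arbitrary products.
-/

set_option autoImplicit false

open scoped Cardinal
open Pool.Agent.Lib.MP_177f07_gt

namespace Pool.Agent.Results.MP_177f07_gt.UncountableBounds

universe u

theorem result (κ : Cardinal.{u}) (hκ : ℵ₁ ≤ κ) :
    (∀ (K : Type u) [TopologicalSpace K] [CompactSpace K] [T2Space K],
      TightLE κ (Prob (K × K)) ↔ TightLE κ (Prob K)) ∧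
    (∀ (I : Type u) (K : I → Type u) [∀ i, TopologicalSpace (K i)] [∀ i, CompactSpace (K i)]
      [∀ i, T2Space (K i)] [∀ i, Nontrivial (K i)],
      TightLE κ (Prob (∀ i, K i)) ↔ #I ≤ κ ∧ ∀ i, TightLE κ (Prob (K i))) :=
  ⟨fun K _ _ _ => main_square_uncountable hκ K, fun _ K _ _ _ _ => main_pi_uncountable hκ K⟩

end Pool.Agent.Results.MP_177f07_gt.UncountableBounds
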